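import Mathlib
import Pool.Agent.U541.WM.H

/-!
# The weak maximizing property fails for every pair `(L_p, L_q)` with `p ≤ 2 ≤ q`, `(p,q) ≠ (2,2)`

Full answer to the question: for real and for complex scalars and for all `1 < p ≤ 2 ≤ q < ∞` other
than `p = q = 2`, some operator from `L_p[0,1]` to `L_q[0,1]` has a maximizing sequence that is not
weakly null and is not norm-attaining.
-/

set_option autoImplicit false

open MeasureTheory Filter Topology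
open scoped ENNReal

namespace Pool.Agent.Results.MP_30e1ee_an.NoWMP

section defs

variable {𝕜 : Type} [RCLike 𝕜] {E F : Type} [NormedAddCommGroup E] [NormedSpace 𝕜 E]
  [NormedAddCommGroup F] [NormedSpace 𝕜 F]

/-- `T` attains its norm at some point of the unit sphere. -/
def NormAttaining (T : E →L[𝕜] F) : Prop := ∃ x : E, ‖x‖ = 1 ∧ ‖T x‖ = ‖T‖

/-- a maximizing sequence for `T`: unit vectors whose images have norms converging to `‖T‖` -/
def IsMaximizing (T : E →L[𝕜] F) (x : ℕ → E) : Prop :=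
  (∀ n, ‖x n‖ = 1) ∧ Tendsto (fun n => ‖T (x n)‖) atTop (𝓝 ‖T‖)

variable (𝕜) in
/-- convergence to `0` in the weak topology -/
def WeaklyNull (x : ℕ → E) : Prop := Tendsto (fun n => toWeakSpace 𝕜 E (x n)) atTop (𝓝 0)

variable (𝕜 E F) in
/-- the weak maximizing property of the pair `(E, F)` -/
def WMP : Prop :=
  ∀ T : E →L[𝕜] F, (∃ x : ℕ → E, IsMaximizing T x ∧ ¬ WeaklyNull 𝕜 x) → NormAttaining T

end defs

/-- `L_r[0,1]` for the scalar field `𝕜` -/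
abbrev X (𝕜 : Type) [RCLike 𝕜] (r : ℝ≥0∞) : Type :=
  Lp 𝕜 r (volume.restrict (Set.Icc (0 : ℝ) 1))

lemma not_wmp_of_bad {𝕜 : Type} [RCLike 𝕜] {E F : Type} [NormedAddCommGroup E] [NormedSpace 𝕜 E]
    [NormedAddCommGroup F] [NormedSpace 𝕜 F] (T : E →L[𝕜] F) (h : Pool.Agent.U541.WM.Bad E F T) :
    ¬ WMP 𝕜 E F := by
  intro hW
  obtain ⟨M, h1, x, h2, h3, φ, hφ⟩ := h
  have hM : ‖T‖ = M := Pool.Agent.U541.WM.norm_eq_of_bad T M h1 x h2 h3
  obtain ⟨y, hy, hy2⟩ := hW T ⟨x, ⟨h2, by rw [hM]; exact h3⟩, fun hw => hφ (by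
    have hc : Continuous (fun z : WeakSpace 𝕜 E => φ ((toWeakSpace 𝕜 E).symm z)) :=
      WeakBilin.eval_continuous (topDualPairing 𝕜 E).flip φ
    have := (hc.tendsto 0).comp hw
    simpa [Function.comp_def] using this)⟩
  have := h1 y hy
  rw [hy2, hM] at this
  exact lt_irrefl _ this

/-- For `𝕜 = ℝ` or `ℂ` and every `1 < p ≤ 2 ≤ q < ∞` with `(p, q) ≠ (2, 2)`, the pair
`(L_p[0,1], L_q[0,1])` fails the weak maximizing property. -/
theorem result (𝕜 : Type) [RCLike 𝕜] (p q : ℝ≥0∞) [Fact (1 ≤ p)] [Fact (1 ≤ q)]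
    (hp1 : 1 < p) (hp2 : p ≤ 2) (hq2 : 2 ≤ q) (hq : q ≠ ∞) (hpq : ¬ (p = 2 ∧ q = 2)) :
    ¬ WMP 𝕜 (X 𝕜 p) (X 𝕜 q) := by
  rcases lt_or_eq_of_le hq2 with h | h
  · obtain ⟨T, hT⟩ := Pool.Agent.U541.WM.caseA (𝕜 := 𝕜) hp1 hp2 h hq
    exact not_wmp_of_bad T hT
  · subst h
    have hp : p < 2 := lt_of_le_of_ne hp2 fun h => hpq ⟨h, rfl⟩
    obtain ⟨T, hT⟩ := Pool.Agent.U541.WM.caseB (𝕜 := 𝕜) hp1 hp
    exact not_wmp_of_bad T hT

end Pool.Agent.Results.MP_30e1ee_an.NoWMP
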